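import Pool.Agent.Lib.MP_dea8c9_co.MG.Off

/-!
# Balance of the pairs in different holes

`av (-D) = c + c' - av D`, so `del (-D) = del D` by `mu s (-a) = 1 - mu s a`, and `sg (-x) = !sg x` for `x ≠ 0`
(`del ≠ 0` by injectivity of `mu s` and `c ≠ c'`): each `s` is counted exactly once.
-/

set_option autoImplicit false

namespace Pool.Agent.Lib.MP_dea8c9_co.MG

open Finset Pool.Agent.Lib.MP_dea8c9_co.MQ

variable {F K : Type} [Field F] [Fintype F] [DecidableEq F] [Field K] [Fintype K] [DecidableEq K]
variable {sg : K → Bool}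

omit [Fintype F] [DecidableEq F] in
private theorem av_neg (hF : (2 : F) ≠ 0) (k : Bool → F) (c c' D : F) (s : Bool) :
    av k c c' (-D) s = c + c' - av k c c' D s := by
  unfold av
  rw [neg_div]
  field_simp
  ring

private theorem del_neg (hF : (2 : F) ≠ 0) {k e : Bool → F} {mu : Bool → F → K} (h : Good sg k e mu) (c c' D : F)
    (s : Bool) : del k mu c c' (-D) s = del k mu c c' D s := by
  unfold del
  rw [av_neg hF, show c + c' - av k c c' D s - c' = -(av k c c' D s - c) by ring,
    show c + c' - av k c c' D s - c = -(av k c c' D s - c') by ring, h.refl, h.refl]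
  ring

private theorem del_ne {k e : Bool → F} {mu : Bool → F → K} (h : Good sg k e mu) {c c' : F} (hc : c ≠ c') (D : F)
    (s : Bool) : del k mu c c' D s ≠ 0 := by
  unfold del
  rw [sub_ne_zero]
  intro h1
  have h2 := h.inj s h1
  exact hc (sub_right_injective h2).symm

theorem cnt_two (hF : (2 : F) ≠ 0) {k e : Bool → F} {mu : Bool → F → K}
    (h : Good sg k e mu)
    {L M : Sq (Option F)} {c c' : F} (hc : c ≠ c') (u v : F × K) (huv : u.2 ≠ v.2) :
    cnt (big sg k e mu L c) (big sg k e mu M c') (some u) (some v) +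
      cnt (big sg k e mu L c) (big sg k e mu M c') (some v) (some u) = 2 := by
  rw [cnt_off hF h hc u v huv, cnt_off hF h hc v u huv.symm]
  have h1 : ∀ s : Bool, sg ((u.2 - v.2) / del k mu c c' (u.1 - v.1) s) =
      !sg ((v.2 - u.2) / del k mu c c' (v.1 - u.1) s) := by
    intro s
    have h2 : u.1 - v.1 = -(v.1 - u.1) := by ring
    have h3 : (u.2 - v.2) / del k mu c c' (v.1 - u.1) s = -((v.2 - u.2) / del k mu c c' (v.1 - u.1) s) := by
      ring
    rw [h2, del_neg hF h, h3]
    exact h.sgn _ (div_ne_zero (sub_ne_zero.mpr huv.symm) (del_ne h hc _ s))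
  simp only [h1]
  have h4 : ∀ t : Bool → Bool, (univ.filter fun s : Bool => t s = s).card +
      (univ.filter fun s : Bool => (!t s) = s).card = 2 := by decide
  exact h4 fun s => sg ((v.2 - u.2) / del k mu c c' (v.1 - u.1) s)

end Pool.Agent.Lib.MP_dea8c9_co.MG
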