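import Pool.Agent.Lib.MP_dea8c9_co.MG.Nu

/-!
# The data from `nu`

`F = ZMod m`; `k true = 1`, `k false = nsq` (a nonsquare), `e true = 0`, `e false = (1/4 - nsq/4) / (4 nsq)` (as in `MR/Sig`),
`mu s a = nu (-2 k_s a)`, `sg b = f (b^o)` with `f : K → Bool`, `f (-x) = !f x` for `x ≠ 0`.
`key`: `w(s,a) = 2 k_s a + 1/2`, `w^2 = k_s (4 al + 1/4)`.  Same `s`: `a = a'`, or `a = 2c - a'`, `a' ≠ c = -1/(4 k_s)`, then
`mu s a ^ o = -(mu s a')^o` (`-2 k (2c - a') = 1 - (-2 k a')`), so `b'^o = -b^o`, `sg b' = !sg b`, contradiction.  `s ≠ t`: both `w` are `0`,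
`mu s a = nu (1/2) = mu t a'`, so `b = b'`, contradiction.
-/

set_option autoImplicit false

namespace Pool.Agent.Lib.MP_dea8c9_co.MG

variable {K : Type} [Field K] [Fintype K] [DecidableEq K]

theorem exists_odd_fun (h2 : (2 : K) ≠ 0) : ∃ f : K → Bool, ∀ x, x ≠ 0 → f (-x) = !(f x) := by
  refine ⟨fun x => decide (Fintype.equivFin K x < Fintype.equivFin K (-x)), fun x hx => ?_⟩
  have hne : Fintype.equivFin K x ≠ Fintype.equivFin K (-x) := by
    intro h
    have h3 : x = -x := (Fintype.equivFin K).injective h
    have h4 : (2 : K) * x = 0 := by linear_combination h3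
    rcases mul_eq_zero.1 h4 with h | h
    · exact h2 h
    · exact hx h
  simp only [neg_neg]
  rcases lt_or_gt_of_ne hne with h | h
  · simp [h, not_lt.2 h.le]
  · simp [h, not_lt.2 h.le]

theorem exists_good {m o : ℕ} [Fact m.Prime] (hm : m % 2 = 1) (h2 : (2 : K) ≠ 0) (ho : Odd o)
    (hoq : o ∣ Fintype.card K - 1) (hmo : m ≤ o) :
    ∃ (sg : K → Bool) (k e : Bool → ZMod m) (mu : Bool → ZMod m → K), Good sg k e mu := by
  classical
  have hmp : m.Prime := Fact.out
  have hm3 : 3 ≤ m := by
    have := hmp.two_le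
    omega
  have : NeZero m := ⟨by omega⟩
  have hF : (2 : ZMod m) ≠ 0 := by
    intro h
    have h3 : ((2 : ℕ) : ZMod m) = 0 := by exact_mod_cast h
    rw [ZMod.natCast_eq_zero_iff] at h3
    have := (Nat.prime_dvd_prime_iff_eq hmp Nat.prime_two).1 h3
    omega
  have h4 : (4 : ZMod m) ≠ 0 := by
    have h : (4 : ZMod m) = 2 * 2 := by norm_num
    rw [h]; exact mul_ne_zero hF hF
  obtain ⟨nu, n1, n2, n3, n4⟩ := exists_nu (K := K) (m := m) hm hm3 h2 ho hoq hmo
  obtain ⟨f, hf⟩ := exists_odd_fun h2
  obtain ⟨nsq, hnsq⟩ : ∃ a : ZMod m, ¬ IsSquare a := by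
    apply FiniteField.exists_nonsquare
    intro h
    apply hF
    have h3 := (ringChar.spec (ZMod m) 2).2 (by rw [h])
    simpa using h3
  have hnsq0 : nsq ≠ 0 := by
    rintro rfl
    exact hnsq ⟨0, by simp⟩
  set k : Bool → ZMod m := fun s => if s then 1 else nsq with hk
  set e : Bool → ZMod m := fun s => if s then 0 else (1 / 4 - nsq / 4) / (4 * nsq) with he
  have hk0 : ∀ s, k s ≠ 0 := by
    intro s
    cases s
    · simpa [hk] using hnsq0
    · simp [hk]
  set w : Bool → ZMod m → ZMod m := fun s a => 2 * k s * a + 1 / 2 with hw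
  have hwsq : ∀ s a, w s a ^ 2 = k s * (4 * al k e s a + 1 / 4) := by
    intro s a
    cases s
    · simp only [hw, hk, he, al, Bool.false_eq_true, if_false]
      field_simp
      ring
    · simp only [hw, hk, he, al, if_true]
      field_simp
      ring
  have hwinj : ∀ s a a', w s a = w s a' → a = a' := by
    intro s a a' h
    have h1 : 2 * k s * a = 2 * k s * a' := by
      simpa [hw] using h
    exact mul_left_cancel₀ (mul_ne_zero hF (hk0 s)) h1
  have mixed : ∀ a a' : ZMod m, al k e true a = al k e false a' → w true a = 0 ∧ w false a' = 0 := by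
    intro a a' h
    have h1 := hwsq true a
    have h2 := hwsq false a'
    rw [← h] at h2
    have hkt : k true = 1 := by simp [hk]
    have hkf : k false = nsq := by simp [hk]
    rw [hkt, one_mul] at h1
    rw [hkf, ← h1] at h2
    have h3 : w true a = 0 := by
      by_contra h0
      apply hnsq
      refine ⟨w false a' / w true a, ?_⟩
      field_simp
      linear_combination -h2
    refine ⟨h3, ?_⟩
    rw [h3] at h2
    have h5 : w false a' ^ 2 = 0 := by rw [h2]; ring
    exact pow_eq_zero_iff (two_ne_zero) |>.1 h5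
  -- the argument of `nu`
  let T : Bool → ZMod m → ZMod m := fun s a => -(2 * k s * a)
  have hT : ∀ s a, T s a = 1 / 2 - w s a := by
    intro s a
    show -(2 * k s * a) = 1 / 2 - (2 * k s * a + 1 / 2)
    ring
  have hTinj : ∀ s, Function.Injective (T s) := by
    intro s a a' h
    apply hwinj s
    have h1 := hT s a
    have h2 := hT s a'
    linear_combination h1 - h2 - h
  have zero_case : ∀ s a, w s a = 0 → T s a = 1 / 2 := by
    intro s a h
    rw [hT, h, sub_zero]
  have hpow : ∀ b : K, (-b) ^ o = -b ^ o := fun b => ho.neg_pow b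
  refine ⟨fun b => f (b ^ o), k, e, fun s a => nu (T s a), hk0, fun s => n1.comp (hTinj s),
    fun s a => n2 _, ?_, ?_, ?_⟩
  · intro s a
    have h1 : T s (-a) = -(T s a) := by
      show -(2 * k s * -a) = -(-(2 * k s * a))
      ring
    show nu (T s (-a)) = 1 - nu (T s a)
    rw [h1, n3]
  · intro b hb
    show f ((-b) ^ o) = !f (b ^ o)
    rw [hpow]
    exact hf _ (pow_ne_zero _ hb)
  · intro a a' b b' hb hb' h1 h5
    show a = a' ∧ b = b'
    obtain ⟨s, hs⟩ : ∃ s, f (b ^ o) = s := ⟨_, rfl⟩
    obtain ⟨t, ht⟩ : ∃ t, f (b' ^ o) = t := ⟨_, rfl⟩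
    have h1' : al k e s a = al k e t a' := by
      rw [← hs, ← ht]; exact h1
    have h5' : nu (T s a) * b = nu (T t a') * b' := by
      rw [← hs, ← ht]; exact h5
    have fin : s ≠ t → w s a = 0 → w t a' = 0 → False := by
      intro hst e1 e2
      rw [zero_case s a e1, zero_case t a' e2] at h5'
      have h6 : b = b' := mul_left_cancel₀ (n2 _) h5'
      apply hst
      rw [← hs, ← ht, h6]
    by_cases hst : s = t
    · subst hst
      have h6 : w s a ^ 2 = w s a' ^ 2 := by rw [hwsq, hwsq, h1']
      have same : a = a' → a = a' ∧ b = b' := by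
        intro h7
        refine ⟨h7, ?_⟩
        rw [h7] at h5'
        exact mul_left_cancel₀ (n2 _) h5'
      rcases sq_eq_sq_iff_eq_or_eq_neg.1 h6 with h7 | h7
      · exact same (hwinj s a a' h7)
      · by_cases h0 : w s a' = 0
        · rw [h0, neg_zero] at h7
          exact same (hwinj s a a' (by rw [h7, h0]))
        · exfalso
          have h8 : T s a = 1 - T s a' := by
            have e1 := hT s a
            have e2 := hT s a'
            have e3 : (1 : ZMod m) / 2 + 1 / 2 = 1 := by
              field_simp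
              norm_num
            linear_combination e1 + e2 - h7 + e3
          have h9 : 2 * T s a' ≠ 1 := by
            intro e1
            apply h0
            have e2 := hT s a'
            have e3 : (2 : ZMod m) * (1 / 2) = 1 := by
              field_simp
            have e4 : (2 : ZMod m) * w s a' = 0 := by linear_combination 2 * e2 - e1 + e3
            exact (mul_eq_zero.1 e4).resolve_left hF
          have h10 := n4 (T s a') h9
          rw [← h8] at h10
          have h11 : (nu (T s a) * b) ^ o = (nu (T s a') * b') ^ o := by rw [h5']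
          rw [mul_pow, mul_pow, h10] at h11
          have h12 : nu (T s a') ^ o * (-(b ^ o)) = nu (T s a') ^ o * b' ^ o := by
            linear_combination h11
          have h13 : -(b ^ o) = b' ^ o := mul_left_cancel₀ (pow_ne_zero _ (n2 _)) h12
          have h14 := hf (b ^ o) (pow_ne_zero _ hb)
          rw [h13, ht, hs] at h14
          revert h14
          cases s <;> decide
    · exfalso
      cases s <;> cases t
      · exact hst rfl
      · obtain ⟨h3, h4⟩ := mixed a' a h1'.symm
        exact fin (by decide) h4 h3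
      · obtain ⟨h3, h4⟩ := mixed a a' h1'
        exact fin (by decide) h3 h4
      · exact hst rfl

end Pool.Agent.Lib.MP_dea8c9_co.MG
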