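import Pool.Agent.Lib.MP_dea8c9_co.MG.Asm
import Pool.Agent.Lib.MP_dea8c9_co.MG.Key
import Pool.Agent.Lib.MP_dea8c9_co.MR.Tr3

/-!
# The recursion for odd `q` such that `q - 1` has an odd divisor `≥ m`
-/

set_option autoImplicit false

namespace Pool.Agent.Lib.MP_dea8c9_co.MG

open Finset Pool.Agent.Lib.MP_dea8c9_co.MQ
open Pool.Agent.Lib.MP_dea8c9_co.MR (move)

/-- `m` an odd prime, `q` an odd prime power, `o ≥ m` an odd divisor of `q - 1`, `N ≤ m`. -/
theorem recursion_div {m q o N : ℕ} (hm : m.Prime) (hm2 : Odd m) (hq : IsPrimePow q) (hq2 : Odd q)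
    (ho : Odd o) (hoq : o ∣ q - 1) (hmo : m ≤ o) (hN : N ≤ m) {L : Fin N → Sq (Fin (m + 1))}
    (hL : IsMQOLS L) {i j u : Fin (m + 1)} (hu : ∀ k, L k i j = u) :
    ∃ M : Fin N → Sq (Fin (m * q + 1)), IsMQOLS M ∧ ∃ i j u, ∀ k, M k i j = u := by
  classical
  obtain ⟨r, b, hr, hb, rfl⟩ := hq
  have hr' : r.Prime := Nat.prime_iff.2 hr
  have : Fact m.Prime := ⟨hm⟩
  have : Fact r.Prime := ⟨hr'⟩
  have : NeZero m := ⟨hm.ne_zero⟩
  letI : Fintype (GaloisField r b) := Fintype.ofFinite _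
  have c2 : Fintype.card (GaloisField r b) = r ^ b := by
    rw [← Nat.card_eq_fintype_card]; exact GaloisField.card r b (by omega)
  have hK : (2 : GaloisField r b) ≠ 0 := by
    intro h2
    have h3 : ((2 : ℕ) : GaloisField r b) = 0 := by exact_mod_cast h2
    rw [CharP.cast_eq_zero_iff (GaloisField r b) r 2] at h3
    have h4 : r = 2 := (Nat.prime_dvd_prime_iff_eq hr' Nat.prime_two).1 h3
    rw [h4] at hq2
    exact (Nat.not_even_iff_odd.2 hq2) (Nat.even_pow.2 ⟨even_two, by omega⟩)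
  have hmm : m % 2 = 1 := Nat.odd_iff.1 hm2
  have hF : (2 : ZMod m) ≠ 0 := by
    intro h
    have h3 : ((2 : ℕ) : ZMod m) = 0 := by exact_mod_cast h
    rw [ZMod.natCast_eq_zero_iff] at h3
    have := (Nat.prime_dvd_prime_iff_eq hm Nat.prime_two).1 h3
    omega
  obtain ⟨L1, h1, h2⟩ := move (β := Option (ZMod m)) (by simp) hL hu none
  obtain ⟨sg, k, e, mu, hg⟩ := exists_good (K := GaloisField r b) (m := m) (o := o) hmm hK ho
    (by rw [c2]; exact hoq) hmo
  obtain ⟨c⟩ : Nonempty (Fin N ↪ ZMod m) :=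
    Function.Embedding.nonempty_of_card_le (by simpa using hN)
  have h3 := big_MQOLS hF hg h1 h2 c c.injective
  have : NeZero (m * r ^ b + 1) := ⟨by omega⟩
  obtain ⟨M, h4, h5⟩ := move (β := Fin (m * r ^ b + 1)) (by simp [c2]) h3 (i := none) (j := none)
    (u := none) (fun _ => rfl) 0
  exact ⟨M, h4, 0, 0, 0, h5⟩

end Pool.Agent.Lib.MP_dea8c9_co.MG
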