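import Pool.Agent.Lib.MP_dea8c9_co.MG.Defs

/-!
# Pairs of symbols in one hole

The cells with the symbols `fil z u`, `fil z v` in the squares `c`, `c'` are the cells `(fil z i, fil z j)` with
`L i j = u`, `M i j = v`: off the holes the two symbols have different second coordinates
(`z' + mu s a * b`, `z' + mu s a' * b`, `a ≠ a'`, `b ≠ 0`), cells in another hole have second coordinates different
from `z`, or both symbols `none`, impossible except for the cell `(none, none)` by `hn`.  (`Finset.card_bij` or
`card_nbij` with `fun p => (fil z p.1, fil z p.2)`.)
-/

set_option autoImplicit false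

namespace Pool.Agent.Lib.MP_dea8c9_co.MG

open Finset Pool.Agent.Lib.MP_dea8c9_co.MQ

variable {F K : Type} [Field F] [Fintype F] [DecidableEq F] [Field K] [Fintype K] [DecidableEq K]
variable {sg : K → Bool}

private theorem hole_inj (z : K) {a b : Option F} (h : fil z a = fil z b) : a = b := by
  cases a with
  | none =>
    cases b with
    | none => rfl
    | some b => simp [fil] at h
  | some a =>
    cases b with
    | none => simp [fil] at h
    | some b =>
      simp only [fil, Option.some.injEq, Prod.mk.injEq] at h
      rw [h.1]

private theorem hole_ne {w z : K} (h : w ≠ z) {x y : Option F} (hx : fil w x = fil z y) : x = none := by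
  cases x with
  | none => rfl
  | some a =>
    cases y with
    | none => simp [fil] at hx
    | some b =>
      simp only [fil, Option.some.injEq, Prod.mk.injEq] at hx
      exact absurd hx.2 h

private theorem hole_big {k e : Bool → F} {mu : Bool → F → K} {L : Sq (Option F)}
    (hL : L none none = none) (c : F) (z : K) (i j : Option F) :
    big sg k e mu L c (fil z i) (fil z j) = fil z (L i j) := by
  cases i with
  | none =>
    cases j with
    | none =>
      rw [hL]
      rfl
    | some b => rfl
  | some a =>
    cases j with
    | none => rfl
    | some b =>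
      show (if z = z then _ else _) = _
      rw [if_pos rfl]

private theorem hole_off {k e : Bool → F} {mu : Bool → F → K} {c x y : F} {w w' z : K} {u : Option F}
    (h : some (off sg k e mu c x y w w') = fil z u) : z = w' + mu (sg (w - w')) (x - y - c) * (w - w') := by
  cases u with
  | none => simp [fil] at h
  | some t =>
    simp only [fil, off, Option.some.injEq, Prod.mk.injEq] at h
    exact h.2.symm

/-- the cells with symbols of the hole `z` in both squares are in the hole -/
private theorem hole_cell {k e : Bool → F} {mu : Bool → F → K} (h : Good sg k e mu)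
    {L M : Sq (Option F)}
    (hn : ∀ i j, L i j = none → M i j = none → i = none ∧ j = none)
    {c c' : F} (hc : c ≠ c') (z : K) {u v : Option F} {p r : Option (F × K)}
    (h1 : big sg k e mu L c p r = fil z u) (h2 : big sg k e mu M c' p r = fil z v) :
    ∃ i j, p = fil z i ∧ r = fil z j := by
  cases p with
  | none =>
    cases r with
    | none => exact ⟨none, none, rfl, rfl⟩
    | some r =>
      obtain ⟨b, w⟩ := r
      by_cases hw : w = z
      · subst hw
        exact ⟨none, some b, rfl, rfl⟩
      · exact absurd (hn none (some b) (hole_ne hw h1) (hole_ne hw h2)).2 (by simp)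
  | some p =>
    obtain ⟨a, w⟩ := p
    cases r with
    | none =>
      by_cases hw : w = z
      · subst hw
        exact ⟨some a, none, rfl, rfl⟩
      · exact absurd (hn (some a) none (hole_ne hw h1) (hole_ne hw h2)).1 (by simp)
    | some r =>
      obtain ⟨b, w'⟩ := r
      have h1' : (if w = w' then fil w (L (some a) (some b)) else some (off sg k e mu c a b w w')) = fil z u := h1
      have h2' : (if w = w' then fil w (M (some a) (some b)) else some (off sg k e mu c' a b w w')) = fil z v := h2
      by_cases hww : w = w'
      · rw [if_pos hww] at h1' h2'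
        by_cases hw : w = z
        · subst hww
          subst hw
          exact ⟨some a, some b, rfl, rfl⟩
        · exact absurd (hn (some a) (some b) (hole_ne hw h1') (hole_ne hw h2')).1 (by simp)
      · rw [if_neg hww] at h1' h2'
        have e1 := hole_off h1'
        have e2 := hole_off h2'
        rw [e1] at e2
        have e3 := add_left_cancel e2
        have e4 := mul_right_cancel₀ (sub_ne_zero.2 hww) e3
        have e5 := h.inj _ e4
        exact absurd (sub_right_injective e5) hc

theorem cnt_hole {k e : Bool → F} {mu : Bool → F → K} (h : Good sg k e mu)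
    {L M : Sq (Option F)} (hL : L none none = none) (hM : M none none = none)
    (hn : ∀ i j, L i j = none → M i j = none → i = none ∧ j = none)
    {c c' : F} (hc : c ≠ c') (z : K) (u v : Option F) :
    cnt (big sg k e mu L c) (big sg k e mu M c') (fil z u) (fil z v) = cnt L M u v := by
  unfold cnt
  symm
  refine Finset.card_bij (fun p _ => (fil z p.1, fil z p.2)) ?_ ?_ ?_
  · rintro ⟨i, j⟩ hp
    obtain ⟨-, h1, h2⟩ := Finset.mem_filter.1 hp
    refine Finset.mem_filter.2 ⟨mem_univ _, ?_, ?_⟩
    · show big sg k e mu L c (fil z i) (fil z j) = fil z u
      rw [hole_big hL]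
      exact congrArg _ h1
    · show big sg k e mu M c' (fil z i) (fil z j) = fil z v
      rw [hole_big hM]
      exact congrArg _ h2
  · rintro ⟨i, j⟩ _ ⟨i', j'⟩ _ hij
    obtain ⟨h1, h2⟩ := Prod.mk.inj hij
    exact Prod.ext (hole_inj z h1) (hole_inj z h2)
  · rintro ⟨p, r⟩ hp
    obtain ⟨-, h1, h2⟩ := Finset.mem_filter.1 hp
    obtain ⟨i, j, rfl, rfl⟩ := hole_cell h hn hc z h1 h2
    refine ⟨(i, j), Finset.mem_filter.2 ⟨mem_univ _, ?_, ?_⟩, rfl⟩
    · have h3 : big sg k e mu L c (fil z i) (fil z j) = fil z u := h1
      rw [hole_big hL] at h3
      exact hole_inj z h3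
    · have h3 : big sg k e mu M c' (fil z i) (fil z j) = fil z v := h2
      rw [hole_big hM] at h3
      exact hole_inj z h3

end Pool.Agent.Lib.MP_dea8c9_co.MG
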