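import Pool.Agent.Lib.MP_dea8c9_co.MG.Defs

/-!
# The rows of the squares

See the head of `Lat`: in the row `some (x, z)` the symbols off the hole are `(x - c/2 + al s (-a), z - mu s (-a) * b)`,
`a = x - y - c`, `b = z - z' ≠ 0`, `s = sg b` (second coordinate not `z`, injective by `key_inj` applied to `-a`, `b`).
-/

set_option autoImplicit false

namespace Pool.Agent.Lib.MP_dea8c9_co.MG

open Finset Pool.Agent.Lib.MP_dea8c9_co.MQ

variable {F K : Type} [Field F] [Fintype F] [DecidableEq F] [Field K] [Fintype K] [DecidableEq K]
variable {sg : K → Bool}

omit [Field F] [Fintype F] [DecidableEq F] [Field K] [Fintype K] [DecidableEq K] in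
private theorem row_fil_inj (z : K) : Function.Injective (fil (F := F) z) := by
  intro o o' h
  rcases o with _ | v <;> rcases o' with _ | v'
  · rfl
  · exact absurd h (by simp [fil])
  · exact absurd h (by simp [fil])
  · have h1 : some (v, z) = some (v', z) := h
    rw [(Prod.mk.inj (Option.some.inj h1)).1]

omit [Field F] [Fintype F] [DecidableEq F] [Field K] [Fintype K] [DecidableEq K] in
private theorem row_fil_snd {z : K} {o : Option F} {v : F × K} (h : fil z o = some v) : v.2 = z := by
  rcases o with _ | w
  · exact absurd h (by simp [fil])
  · have h1 : some (w, z) = some v := h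
    rw [← Option.some.inj h1]

private theorem row_off_ne {k e : Bool → F} {mu : Bool → F → K} (h : Good sg k e mu) (c x y : F) {z z' : K}
    (hz : z ≠ z') (o : Option F) : fil z o ≠ some (off sg k e mu c x y z z') := by
  intro h1
  have h2 : z' + mu (sg (z - z')) (x - y - c) * (z - z') = z := row_fil_snd h1
  have h3 : (mu (sg (z - z')) (x - y - c) - 1) * (z - z') = 0 := by linear_combination h2
  rcases mul_eq_zero.1 h3 with h4 | h4
  · have h5 := h.refl (sg (z - z')) (x - y - c)
    exact h.ne0 (sg (z - z')) (-(x - y - c)) (by rw [h5]; linear_combination -h4)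
  · exact hz (sub_eq_zero.1 h4)

theorem row_inj (hF : (2 : F) ≠ 0) {k e : Bool → F} {mu : Bool → F → K}
    (h : Good sg k e mu)
    {L : Sq (Option F)} (hL : IsLatin L) (h0 : L none none = none) (c : F) (i : Option (F × K)) :
    Function.Injective (big sg k e mu L c i) := by
  intro j j' hj
  rcases i with _ | ⟨x, z⟩
  · have hne : ∀ v : F, L none (some v) ≠ none := by
      intro v h1
      have h2 : (some v : Option F) = none := (hL.1 none).1 (h1.trans h0.symm)
      exact absurd h2 (by simp)
    rcases j with _ | ⟨y, z1⟩ <;> rcases j' with _ | ⟨y2, z2⟩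
    · rfl
    · have h1 : fil z2 none = fil z2 (L none (some y2)) := hj
      exact absurd (row_fil_inj z2 h1).symm (hne y2)
    · have h1 : fil z1 (L none (some y)) = fil z1 none := hj
      exact absurd (row_fil_inj z1 h1) (hne y)
    · have h1 : fil z1 (L none (some y)) = fil z2 (L none (some y2)) := hj
      obtain ⟨v, hv⟩ := Option.ne_none_iff_exists'.1 (hne y2)
      rw [hv] at h1
      have h2 : z2 = z1 := row_fil_snd h1
      subst h2
      have h3 := row_fil_inj z2 h1
      rw [← hv] at h3
      have h4 := (hL.1 none).1 h3
      rw [Option.some.inj h4]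
  · have hin : ∀ y : F, big sg k e mu L c (some (x, z)) (some (y, z)) = fil z (L (some x) (some y)) := by
      intro y
      show (if z = z then _ else _) = _
      rw [if_pos rfl]
    have hout : ∀ (y : F) (z' : K), z ≠ z' → big sg k e mu L c (some (x, z)) (some (y, z')) =
        some (off sg k e mu c x y z z') := by
      intro y z' hz
      show (if z = z' then _ else _) = _
      rw [if_neg hz]
    have hno : big sg k e mu L c (some (x, z)) none = fil z (L (some x) none) := rfl
    rcases j with _ | ⟨y, z1⟩ <;> rcases j' with _ | ⟨y2, z2⟩
    · rfl
    · by_cases hz2 : z = z2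
      · subst hz2
        rw [hno, hin] at hj
        exact absurd ((hL.1 (some x)).1 (row_fil_inj z hj)) (by simp)
      · rw [hno, hout y2 z2 hz2] at hj
        exact absurd hj (row_off_ne h c x y2 hz2 _)
    · by_cases hz1 : z = z1
      · subst hz1
        rw [hno, hin] at hj
        exact absurd ((hL.1 (some x)).1 (row_fil_inj z hj)) (by simp)
      · rw [hno, hout y z1 hz1] at hj
        exact absurd hj.symm (row_off_ne h c x y hz1 _)
    · by_cases hz1 : z = z1
      · subst hz1
        by_cases hz2 : z = z2
        · subst hz2
          rw [hin, hin] at hj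
          rw [Option.some.inj ((hL.1 (some x)).1 (row_fil_inj z hj))]
        · rw [hin, hout y2 z2 hz2] at hj
          exact absurd hj (row_off_ne h c x y2 hz2 _)
      · by_cases hz2 : z = z2
        · subst hz2
          rw [hin, hout y z1 hz1] at hj
          exact absurd hj.symm (row_off_ne h c x y hz1 _)
        · rw [hout y z1 hz1, hout y2 z2 hz2] at hj
          have h1 := Prod.mk.inj (Option.some.inj hj)
          obtain ⟨h2, h3⟩ := h1
          have g1 := h.refl (sg (z - z1)) (x - y - c)
          have g2 := h.refl (sg (z - z2)) (x - y2 - c)
          have hal : ∀ (s : Bool) (a : F), al k e s (-a) = al k e s a - a := by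
            intro s a
            have h4 : a / 2 + a / 2 = a := by
              field_simp
              ring
            unfold al
            linear_combination -h4
          obtain ⟨h5, h6⟩ := h.key (-(x - y - c)) (-(x - y2 - c)) _ _ (sub_ne_zero.2 hz1)
            (sub_ne_zero.2 hz2) (by rw [hal, hal]; linear_combination h2)
            (by rw [g1, g2]; linear_combination -h3)
          have h7 : y = y2 := by linear_combination h5
          have h8 : z1 = z2 := by linear_combination -h6
          rw [h7, h8]

end Pool.Agent.Lib.MP_dea8c9_co.MG
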