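import Pool.Agent.Lib.MP_dea8c9_co.MG.Col
import Pool.Agent.Lib.MP_dea8c9_co.MG.Row
import Pool.Agent.Lib.MP_dea8c9_co.MG.Hole
import Pool.Agent.Lib.MP_dea8c9_co.MG.Two

/-!
# Assembly: the squares form a family of mutually quasi-orthogonal latin squares
-/

set_option autoImplicit false

namespace Pool.Agent.Lib.MP_dea8c9_co.MG

open Finset Pool.Agent.Lib.MP_dea8c9_co.MQ

variable {F K : Type} [Field F] [Fintype F] [DecidableEq F] [Field K] [Fintype K] [DecidableEq K]
variable {sg : K → Bool}

theorem none_cell {N : ℕ} {L : Fin N → Sq (Option F)} (hL : IsMQOLS L)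
    (h0 : ∀ n, L n none none = none) {n n' : Fin N} (hn : n ≠ n') :
    ∀ i j, L n i j = none → L n' i j = none → i = none ∧ j = none := by
  intro i j h1 h2
  have h := (hL.2 n n' hn).1 none
  unfold cnt at h
  rw [Finset.card_eq_one] at h
  obtain ⟨x, hx⟩ := h
  have m1 : (i, j) ∈ ({x} : Finset (Option F × Option F)) := by
    rw [← hx]; exact Finset.mem_filter.2 ⟨mem_univ _, h1, h2⟩
  have m2 : ((none : Option F), (none : Option F)) ∈ ({x} : Finset (Option F × Option F)) := by
    rw [← hx]; exact Finset.mem_filter.2 ⟨mem_univ _, h0 n, h0 n'⟩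
  rw [Finset.mem_singleton] at m1 m2
  have := m1.trans m2.symm
  exact ⟨congrArg Prod.fst this, congrArg Prod.snd this⟩

theorem big_MQOLS (hF : (2 : F) ≠ 0) {k e : Bool → F}
    {mu : Bool → F → K} (h : Good sg k e mu) {N : ℕ} {L : Fin N → Sq (Option F)} (hL : IsMQOLS L)
    (h0 : ∀ n, L n none none = none) (c : Fin N → F) (hc : Function.Injective c) :
    IsMQOLS fun n => big sg k e mu (L n) (c n) := by
  refine ⟨fun n => ⟨fun i => ?_, fun j => ?_⟩, fun n n' hn => ?_⟩
  · exact Finite.injective_iff_bijective.1 (row_inj hF h (hL.1 n) (h0 n) (c n) i)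
  · exact Finite.injective_iff_bijective.1 (col_inj h (hL.1 n) (h0 n) (c n) j)
  · have hcc : c n ≠ c n' := fun h' => hn (hc h')
    have hQ := hL.2 n n' hn
    have key := fun (z : K) (u v : Option F) =>
      cnt_hole h (h0 n) (h0 n') (none_cell hL h0 hn) hcc z u v
    refine ⟨?_, ?_⟩
    · intro u
      cases u with
      | none => simpa [fil] using (key 0 none none).trans (hQ.1 none)
      | some p => simpa [fil] using (key p.2 (some p.1) (some p.1)).trans (hQ.1 (some p.1))
    · intro u v huv
      have hole : ∀ (z : K) (u v : Option F), u ≠ v →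
          cnt (big sg k e mu (L n) (c n)) (big sg k e mu (L n') (c n')) (fil z u) (fil z v) +
          cnt (big sg k e mu (L n) (c n)) (big sg k e mu (L n') (c n')) (fil z v) (fil z u) = 2 := by
        intro z u v huv
        rw [key, key]; exact hQ.2 u v huv
      cases u with
      | none =>
        cases v with
        | none => exact absurd rfl huv
        | some p => simpa [fil] using hole p.2 none (some p.1) (by simp)
      | some r =>
        cases v with
        | none => simpa [fil] using hole r.2 (some r.1) none (by simp)
        | some p =>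
          by_cases h2 : r.2 = p.2
          · have h1 : r.1 ≠ p.1 := fun h1 => huv (by rw [Prod.ext h1 h2])
            have := hole r.2 (some r.1) (some p.1) (by simpa using h1)
            simp only [fil] at this
            rw [show r = (r.1, r.2) from rfl, show p = (p.1, r.2) from Prod.ext rfl h2.symm]
            exact this
          · exact cnt_two hF h hcc r p h2

end Pool.Agent.Lib.MP_dea8c9_co.MG
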