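import Pool.Agent.Lib.MP_dea8c9_co.MG.Defs

/-!
# The columns of the squares

See the head of `Lat`: in the column `some (y, z')` the symbols are those of the hole (`none` or second coordinate
`z'`, all different since `L` is latin) and `(y + c/2 + al s a, z' + mu s a * b)`, `a = x - y - c`, `b = z - z' ≠ 0`,
`s = sg b` (second coordinate not `z'`, injective by `key_inj`).  In the column `none`: the symbols
`fil z (L (some x) none)` and `none`: no `fil z (L (some x) none)` is `none` as `L none none = none`.
-/

set_option autoImplicit false

namespace Pool.Agent.Lib.MP_dea8c9_co.MG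

open Finset Pool.Agent.Lib.MP_dea8c9_co.MQ

variable {F K : Type} [Field F] [Fintype F] [DecidableEq F] [Field K] [Fintype K] [DecidableEq K]
variable {sg : K → Bool}

omit [Field F] [Fintype F] [DecidableEq F] [Field K] [Fintype K] [DecidableEq K] in
private theorem fil_some {z : K} {u : Option F} {p : F × K} (h : fil z u = some p) :
    u = some p.1 ∧ z = p.2 := by
  cases u with
  | none => exact absurd h (by simp [fil])
  | some v =>
    have h1 : (v, z) = p := Option.some.inj h
    rw [← h1]
    exact ⟨rfl, rfl⟩

omit [Field F] [Fintype F] [DecidableEq F] [Field K] [Fintype K] [DecidableEq K] in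
private theorem fil_none {z : K} {u : Option F} (h : fil z u = none) : u = none := by
  cases u with
  | none => rfl
  | some v => exact absurd h (by simp [fil])

omit [Field F] [Fintype F] [DecidableEq F] [Field K] [Fintype K] [DecidableEq K] in
private theorem fil_inj {z : K} {u v : Option F} (h : fil z u = fil z v) : u = v := by
  cases hv : fil z v with
  | none => rw [fil_none hv, fil_none (h.trans hv)]
  | some p => rw [(fil_some hv).1, (fil_some (h.trans hv)).1]

theorem col_inj {k e : Bool → F} {mu : Bool → F → K} (h : Good sg k e mu)
    {L : Sq (Option F)} (hL : IsLatin L) (h0 : L none none = none) (c : F) (j : Option (F × K)) :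
    Function.Injective fun i => big sg k e mu L c i j := by
  intro i i' hi
  have hi : big sg k e mu L c i j = big sg k e mu L c i' j := hi
  rcases j with _ | ⟨y, z'⟩
  · have hno : ∀ x : F, L (some x) none ≠ none := by
      intro x hx
      have := (hL.2 none).1 (show L (some x) none = L none none by rw [hx, h0])
      exact absurd this (by simp)
    rcases i with _ | ⟨x, z⟩ <;> rcases i' with _ | ⟨x', w⟩
    · rfl
    · exact absurd (fil_none (z := w) (u := L (some x') none) hi.symm) (hno x')
    · exact absurd (fil_none (z := z) (u := L (some x) none) hi) (hno x)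
    · have hi1 : fil z (L (some x) none) = fil w (L (some x') none) := hi
      cases hv : fil w (L (some x') none) with
      | none => exact absurd (fil_none hv) (hno x')
      | some p =>
        obtain ⟨h1, h2⟩ := fil_some hv
        obtain ⟨h3, h4⟩ := fil_some (hi1.trans hv)
        have h5 := (hL.2 none).1 (show L (some x) none = L (some x') none by rw [h1, h3])
        rw [Option.some.inj h5, h2, h4]
  · have hol : ∀ x : F, big sg k e mu L c (some (x, z')) (some (y, z')) = fil z' (L (some x) (some y)) :=
      fun x => if_pos rfl
    have hof : ∀ (x : F) (z : K), z ≠ z' →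
        big sg k e mu L c (some (x, z)) (some (y, z')) = some (off sg k e mu c x y z z') :=
      fun x z hz => if_neg hz
    have hnn : big sg k e mu L c none (some (y, z')) = fil z' (L none (some y)) := rfl
    have hsep : ∀ (u : Option F) (x : F) (z : K), z ≠ z' → fil z' u ≠ some (off sg k e mu c x y z z') := by
      intro u x z hz hu
      have h1 : z' = z' + mu (sg (z - z')) (x - y - c) * (z - z') := (fil_some hu).2
      have h2 : mu (sg (z - z')) (x - y - c) * (z - z') = 0 := by
        have h3 := sub_eq_zero.2 h1.symm
        rwa [add_sub_cancel_left] at h3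
      rcases mul_eq_zero.1 h2 with h3 | h3
      · exact h.ne0 _ _ h3
      · exact hz (sub_eq_zero.1 h3)
    have hcase : ∀ i : Option (F × K), i = none ∨ (∃ x, i = some (x, z')) ∨ ∃ x z, z ≠ z' ∧ i = some (x, z) := by
      intro i
      rcases i with _ | ⟨x, z⟩
      · exact Or.inl rfl
      · by_cases hz : z = z'
        · exact Or.inr (Or.inl ⟨x, by rw [hz]⟩)
        · exact Or.inr (Or.inr ⟨x, z, hz, rfl⟩)
    have hinj : ∀ u v : Option F, fil z' (L u (some y)) = fil z' (L v (some y)) → u = v :=
      fun u v huv => (hL.2 (some y)).1 (fil_inj huv)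
    rcases hcase i with rfl | ⟨x, rfl⟩ | ⟨x, z, hz, rfl⟩ <;>
      rcases hcase i' with rfl | ⟨x', rfl⟩ | ⟨x', w, hw, rfl⟩
    · rfl
    · rw [hnn, hol] at hi
      exact absurd (hinj _ _ hi) (by simp)
    · rw [hnn, hof _ _ hw] at hi
      exact absurd hi (hsep _ _ _ hw)
    · rw [hnn, hol] at hi
      exact absurd (hinj _ _ hi) (by simp)
    · rw [hol, hol] at hi
      rw [Option.some.inj (hinj _ _ hi)]
    · rw [hol, hof _ _ hw] at hi
      exact absurd hi (hsep _ _ _ hw)
    · rw [hof _ _ hz, hnn] at hi
      exact absurd hi.symm (hsep _ _ _ hz)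
    · rw [hof _ _ hz, hol] at hi
      exact absurd hi.symm (hsep _ _ _ hz)
    · rw [hof _ _ hz, hof _ _ hw] at hi
      have h1 := Option.some.inj hi
      have h2 : y + c / 2 + al k e (sg (z - z')) (x - y - c) =
          y + c / 2 + al k e (sg (w - z')) (x' - y - c) := congrArg Prod.fst h1
      have h3 : z' + mu (sg (z - z')) (x - y - c) * (z - z') =
          z' + mu (sg (w - z')) (x' - y - c) * (w - z') := congrArg Prod.snd h1
      obtain ⟨h4, h5⟩ := h.key _ _ _ _ (sub_ne_zero.2 hz) (sub_ne_zero.2 hw) (add_left_cancel h2)
        (add_left_cancel h3)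
      have h6 : x = x' := by
        have h7 : x - y = x' - y := sub_left_injective h4
        exact sub_left_injective h7
      have h8 : z = w := sub_left_injective h5
      rw [h6, h8]

end Pool.Agent.Lib.MP_dea8c9_co.MG
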