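import Pool.Agent.Lib.MP_dea8c9_co.MG.Defs

/-!
# The slopes `nu`

Greedy sequence `y 0 = 1/2`, `(y (j+1))^o = -(1 - y j)^o` for `j < (m-1)/2`, all `y i`, `1 - y j` different except
`y 0 = 1 - y 0`, none of them `0`: with `g` of order `o` in the units the `o` elements
`-(1 - y j) * g^i` have the right power (`o` odd), and at most `2 j + 2 < o` elements are forbidden.
Then `nu t = y t.val` if `t.val ≤ (m-1)/2` and `1 - y (m - t.val)` otherwise.
-/

set_option autoImplicit false

namespace Pool.Agent.Lib.MP_dea8c9_co.MG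

variable {K : Type} [Field K] [Fintype K] [DecidableEq K]

theorem exists_root_avoid {o : ℕ} (ho : Odd o) (hoq : o ∣ Fintype.card K - 1) {v : K} (hv : v ≠ 0)
    (U : Finset K) (hU : U.card < o) : ∃ x : K, x ^ o = -v ^ o ∧ x ∉ U ∧ x ≠ 0 := by
  classical
  obtain ⟨γ, hγ⟩ := IsCyclic.exists_generator (α := Kˣ)
  have hord : orderOf γ = Fintype.card K - 1 := by
    rw [orderOf_eq_card_of_forall_mem_zpowers hγ, Nat.card_eq_fintype_card, Fintype.card_units]
  have h0 : orderOf γ ≠ 0 := (orderOf_pos γ).ne'
  have hg : orderOf (γ ^ (orderOf γ / o)) = o := orderOf_pow_orderOf_div h0 (by rw [hord]; exact hoq)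
  obtain ⟨g, hg⟩ : ∃ g : Kˣ, orderOf g = o := ⟨_, hg⟩
  have hinj : Set.InjOn (fun i : ℕ => -v * ((g ^ i : Kˣ) : K)) (Finset.range o : Finset ℕ) := by
    intro i hi j hj hij
    have h1 : ((g ^ i : Kˣ) : K) = ((g ^ j : Kˣ) : K) := mul_left_cancel₀ (neg_ne_zero.2 hv) hij
    have h2 : g ^ i = g ^ j := Units.ext h1
    have hi' : i ∈ Set.Iio (orderOf g) := by rw [hg]; simpa using hi
    have hj' : j ∈ Set.Iio (orderOf g) := by rw [hg]; simpa using hj
    exact pow_injOn_Iio_orderOf hi' hj' h2
  have hcard : ((Finset.range o).image fun i : ℕ => -v * ((g ^ i : Kˣ) : K)).card = o := by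
    rw [Finset.card_image_of_injOn hinj, Finset.card_range]
  obtain ⟨x, hx, hxU⟩ := Finset.exists_mem_notMem_of_card_lt_card
    (s := U) (t := (Finset.range o).image fun i : ℕ => -v * ((g ^ i : Kˣ) : K)) (by rw [hcard]; exact hU)
  obtain ⟨i, -, rfl⟩ := Finset.mem_image.1 hx
  refine ⟨_, ?_, hxU, mul_ne_zero (neg_ne_zero.2 hv) (Units.ne_zero _)⟩
  have h1 : ((g ^ i : Kˣ) : K) ^ o = 1 := by
    rw [← Units.val_pow_eq_pow_val, ← pow_mul, mul_comm, pow_mul]
    have : g ^ o = 1 := by rw [← hg]; exact pow_orderOf_eq_one g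
    rw [this, one_pow, Units.val_one]
  rw [mul_pow, h1, mul_one, ho.neg_pow]

/-- the greedy sequence up to the index `k` -/
def IsSeq (o k : ℕ) (y : ℕ → K) : Prop :=
  y 0 = 1 / 2 ∧ (∀ j, j < k → y (j + 1) ^ o = -(1 - y j) ^ o) ∧
    (∀ i j, i ≤ k → j ≤ k → y i = y j → i = j) ∧
    (∀ i j, i ≤ k → j ≤ k → y i = 1 - y j → i = 0 ∧ j = 0) ∧
    (∀ i, i ≤ k → y i ≠ 0) ∧ ∀ i, i ≤ k → 1 - y i ≠ 0

theorem exists_seq (h2 : (2 : K) ≠ 0) {o : ℕ} (ho : Odd o) (hoq : o ∣ Fintype.card K - 1) :
    ∀ k, 2 * k + 1 ≤ o → ∃ y : ℕ → K, IsSeq o k y := by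
  classical
  have hhalf : (1 : K) - 1 / 2 = 1 / 2 := by
    field_simp
    ring
  intro k
  induction k with
  | zero =>
    intro _
    refine ⟨fun _ => 1 / 2, rfl, fun j hj => absurd hj (Nat.not_lt_zero j), ?_, ?_, ?_, ?_⟩
    · intro i j hi hj _
      omega
    · intro i j hi hj _
      omega
    · intro i _
      exact one_div_ne_zero h2
    · intro i _
      rw [hhalf]
      exact one_div_ne_zero h2
  | succ k ih =>
    intro hk
    obtain ⟨y, y0, y1, y2, y3, y4, y5⟩ := ih (by omega)
    let U : Finset K := (Finset.range (k + 1)).image y ∪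
      ((Finset.range k).image (fun i => 1 - y (i + 1)) ∪ {1})
    have hU : U.card < o := by
      have e1 : U.card ≤ ((Finset.range (k + 1)).image y).card +
        ((Finset.range k).image (fun i => 1 - y (i + 1)) ∪ {1}).card := Finset.card_union_le _ _
      have e2 : ((Finset.range k).image (fun i => 1 - y (i + 1)) ∪ {1} : Finset K).card ≤
        ((Finset.range k).image (fun i => 1 - y (i + 1))).card + ({1} : Finset K).card :=
        Finset.card_union_le _ _
      have e3 : ((Finset.range (k + 1)).image y).card ≤ (Finset.range (k + 1)).card :=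
        Finset.card_image_le
      have e4 : ((Finset.range k).image (fun i => 1 - y (i + 1))).card ≤ (Finset.range k).card :=
        Finset.card_image_le
      rw [Finset.card_range] at e3 e4
      rw [Finset.card_singleton] at e2
      omega
    obtain ⟨x, hx1, hx2, hx3⟩ := exists_root_avoid ho hoq (y5 k le_rfl) U hU
    have hxy : ∀ i, i ≤ k → x ≠ y i := by
      intro i hi e
      apply hx2
      rw [e]
      exact Finset.mem_union_left _ (Finset.mem_image_of_mem _ (Finset.mem_range.2 (by omega)))
    have hxz : ∀ i, i ≤ k → x ≠ 1 - y i := by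
      intro i hi e
      cases i with
      | zero =>
        apply hxy 0 (Nat.zero_le _)
        rw [e, y0, hhalf]
      | succ i =>
        apply hx2
        rw [e]
        exact Finset.mem_union_right _ (Finset.mem_union_left _
          (Finset.mem_image.2 ⟨i, Finset.mem_range.2 (by omega), rfl⟩))
    have hx11 : x ≠ 1 := by
      intro e
      apply hx2
      rw [e]
      exact Finset.mem_union_right _ (Finset.mem_union_right _ (Finset.mem_singleton_self _))
    have hxx : x ≠ 1 - x := by
      intro e
      apply hxy 0 (Nat.zero_le _)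
      rw [y0]
      field_simp
      linear_combination e
    let z : ℕ → K := fun i => if i = k + 1 then x else y i
    have zk : z (k + 1) = x := if_pos rfl
    have zi : ∀ i, i ≤ k → z i = y i := fun i hi => if_neg (by omega)
    have split : ∀ i, i ≤ k + 1 → i = k + 1 ∨ i ≤ k := fun i hi => by omega
    refine ⟨z, by rw [zi 0 (Nat.zero_le _), y0], ?_, ?_, ?_, ?_, ?_⟩
    · intro j hj
      rcases split (j + 1) (by omega) with h | h
      · have hj' : j = k := by omega
        rw [hj', zk, zi k le_rfl]
        exact hx1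
      · rw [zi (j + 1) h, zi j (by omega)]
        exact y1 j (by omega)
    · intro i j hi hj e
      rcases split i hi with h | h <;> rcases split j hj with h' | h'
      · omega
      · rw [h, zk, zi j h'] at e
        exact absurd e (hxy j h')
      · rw [h', zk, zi i h] at e
        exact absurd e.symm (hxy i h)
      · rw [zi i h, zi j h'] at e
        exact y2 i j h h' e
    · intro i j hi hj e
      rcases split i hi with h | h <;> rcases split j hj with h' | h'
      · rw [h, h', zk] at e
        exact absurd e hxx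
      · rw [h, zk, zi j h'] at e
        exact absurd e (hxz j h')
      · rw [h', zk, zi i h] at e
        exact absurd (show x = 1 - y i by linear_combination e) (hxz i h)
      · rw [zi i h, zi j h'] at e
        exact y3 i j h h' e
    · intro i hi
      rcases split i hi with h | h
      · rw [h, zk]
        exact hx3
      · rw [zi i h]
        exact y4 i h
    · intro i hi
      rcases split i hi with h | h
      · rw [h, zk]
        exact sub_ne_zero.2 (Ne.symm hx11)
      · rw [zi i h]
        exact y5 i h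

theorem one_sub_val {m : ℕ} [NeZero m] (hm3 : 3 ≤ m) (t : ZMod m) (ht : 2 ≤ t.val) :
    (1 - t).val = m + 1 - t.val := by
  have h1 : t.val < m := ZMod.val_lt t
  have h3 : 1 - t = ((m + 1 - t.val : ℕ) : ZMod m) := by
    rw [Nat.cast_sub (by omega), Nat.cast_add, ZMod.natCast_self, Nat.cast_one,
      ZMod.natCast_zmod_val]
    ring
  rw [h3]
  exact ZMod.val_cast_of_lt (by omega)

theorem exists_nu {m o : ℕ} [NeZero m] (hm : m % 2 = 1) (hm3 : 3 ≤ m) (h2 : (2 : K) ≠ 0) (ho : Odd o)
    (hoq : o ∣ Fintype.card K - 1) (hmo : m ≤ o) :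
    ∃ nu : ZMod m → K, Function.Injective nu ∧ (∀ t, nu t ≠ 0) ∧ (∀ t, nu (-t) = 1 - nu t) ∧
      ∀ t, 2 * t ≠ 1 → nu (1 - t) ^ o = -(nu t) ^ o := by
  obtain ⟨M, hM⟩ : ∃ M, m = 2 * M + 1 := ⟨m / 2, by omega⟩
  obtain ⟨y, y0, y1, y2, y3, y4, y5⟩ := exists_seq h2 ho hoq M (by omega)
  have hhalf : (1 : K) - 1 / 2 = 1 / 2 := by
    field_simp
    ring
  have : Fact (1 < m) := ⟨by omega⟩
  let nu : ZMod m → K := fun t => if t.val ≤ M then y t.val else 1 - y (m - t.val)
  have n1 : ∀ t : ZMod m, t.val ≤ M → nu t = y t.val := fun t ht => if_pos ht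
  have n2 : ∀ t : ZMod m, ¬ t.val ≤ M → nu t = 1 - y (m - t.val) := fun t ht => if_neg ht
  have hlt : ∀ t : ZMod m, t.val < m := fun t => ZMod.val_lt t
  refine ⟨nu, ?_, ?_, ?_, ?_⟩
  · intro t t' e
    apply ZMod.val_injective m
    have a1 := hlt t
    have a2 := hlt t'
    by_cases h : t.val ≤ M
    · by_cases h' : t'.val ≤ M
      · rw [n1 t h, n1 t' h'] at e
        exact y2 _ _ h h' e
      · rw [n1 t h, n2 t' h'] at e
        have := y3 _ _ h (by omega) e
        omega
    · by_cases h' : t'.val ≤ M
      · rw [n2 t h, n1 t' h'] at e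
        have := y3 _ _ h' (by omega) e.symm
        omega
      · rw [n2 t h, n2 t' h'] at e
        have := y2 _ _ (by omega) (by omega) (sub_right_injective e)
        omega
  · intro t
    by_cases h : t.val ≤ M
    · rw [n1 t h]
      exact y4 _ h
    · rw [n2 t h]
      have := hlt t
      exact y5 _ (by omega)
  · intro t
    by_cases h0 : t = 0
    · rw [h0, neg_zero, n1 0 (by rw [ZMod.val_zero]; exact Nat.zero_le _), ZMod.val_zero, y0, hhalf]
    · have hv : (-t).val = m - t.val := by
        have : NeZero t := ⟨h0⟩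
        exact ZMod.val_neg_of_ne_zero t
      have hpos : 0 < t.val := Nat.pos_of_ne_zero fun h => h0 ((ZMod.val_eq_zero t).1 h)
      have a1 := hlt t
      by_cases h : t.val ≤ M
      · rw [n1 t h, n2 (-t) (by rw [hv]; omega), hv]
        congr 2
        omega
      · rw [n2 t h, n1 (-t) (by rw [hv]; omega), hv]
        ring
  · intro t ht
    have a1 := hlt t
    have r1 : y 1 ^ o = -(y 0) ^ o := by
      have := y1 0 (by omega)
      rw [zero_add] at this
      rw [this, y0, hhalf]
    rcases Nat.lt_or_ge t.val 2 with hv | hv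
    · rcases Nat.lt_or_ge t.val 1 with hv0 | hv1
      · have h0 : t = 0 := (ZMod.val_eq_zero t).1 (by omega)
        have hv1 : (1 : ZMod m).val = 1 := ZMod.val_one m
        rw [h0, sub_zero, n1 1 (by rw [hv1]; omega), hv1,
          n1 0 (by rw [ZMod.val_zero]; exact Nat.zero_le _), ZMod.val_zero]
        exact r1
      · have h1 : t = 1 := by
          apply ZMod.val_injective m
          rw [ZMod.val_one]
          omega
        have hv1 : (1 : ZMod m).val = 1 := ZMod.val_one m
        rw [h1, sub_self, n1 1 (by rw [hv1]; omega), hv1,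
          n1 0 (by rw [ZMod.val_zero]; exact Nat.zero_le _), ZMod.val_zero, r1, neg_neg]
    · have hs := one_sub_val hm3 t hv
      by_cases h : t.val ≤ M
      · rw [n1 t h, n2 (1 - t) (by rw [hs]; omega), hs]
        have e1 : m - (m + 1 - t.val) = t.val - 1 := by omega
        have e2 := y1 (t.val - 1) (by omega)
        rw [show t.val - 1 + 1 = t.val by omega] at e2
        rw [e1, e2, neg_neg]
      · have hne : t.val ≠ M + 1 := by
          intro e
          apply ht
          have h3 : ((2 * t.val : ℕ) : ZMod m) = ((m + 1 : ℕ) : ZMod m) := by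
            congr 1
            omega
          push_cast at h3
          rw [ZMod.natCast_zmod_val, ZMod.natCast_self, zero_add] at h3
          exact h3
        rw [n2 t h, n1 (1 - t) (by rw [hs]; omega), hs]
        have e2 := y1 (m - t.val) (by omega)
        rw [show m - t.val + 1 = m + 1 - t.val by omega] at e2
        exact e2

end Pool.Agent.Lib.MP_dea8c9_co.MG
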