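import Pool.Agent.Lib.MP_dea8c9_co.MG.Defs

/-!
# Pairs of symbols in different holes

Let `u = (u1, u2)`, `v = (v1, v2)`, `u2 ≠ v2`, `D = v1 - u1`, `E = v2 - u2`.  A cell `((x, z), (y, z'))` with the symbols
`u`, `v` is off the holes; with `a = x - y`, `b = z - z'`, `s = sg b`:
`D = k s * (c - c') * (2 a - c - c')` (the terms `/2` and `e s` cancel), so `a = av k c c' D s`, and
`E = (mu s (a - c') - mu s (a - c)) * b`, so `b = E / del`, `sg b = s`.  Conversely each `s` with `sg (E / del s) = s`
gives exactly one cell: `y = u1 - c/2 - al s (a - c)`, `x = y + a`, `z' = u2 - mu s (a - c) * b`, `z = z' + b`.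
-/

set_option autoImplicit false

namespace Pool.Agent.Lib.MP_dea8c9_co.MG

open Finset Pool.Agent.Lib.MP_dea8c9_co.MQ

variable {F K : Type} [Field F] [Fintype F] [DecidableEq F] [Field K] [Fintype K] [DecidableEq K]
variable {sg : K → Bool}

/-- the difference `x - y` of a cell -/
def av (k : Bool → F) (c c' D : F) (s : Bool) : F := (c + c' + D / (k s * (c - c'))) / 2

/-- the factor between the difference of the symbols and `z - z'` -/
def del (k : Bool → F) (mu : Bool → F → K) (c c' D : F) (s : Bool) : K :=
  mu s (av k c c' D s - c') - mu s (av k c c' D s - c)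

theorem cnt_off (hF : (2 : F) ≠ 0) {k e : Bool → F} {mu : Bool → F → K} (h : Good sg k e mu)
    {L M : Sq (Option F)} {c c' : F} (hc : c ≠ c') (u v : F × K) (huv : u.2 ≠ v.2) :
    cnt (big sg k e mu L c) (big sg k e mu M c') (some u) (some v) =
      (univ.filter fun s : Bool => sg ((v.2 - u.2) / del k mu c c' (v.1 - u.1) s) = s).card := by
  classical
  have hcc : c - c' ≠ 0 := sub_ne_zero.2 hc
  have hE : v.2 - u.2 ≠ 0 := sub_ne_zero.2 (Ne.symm huv)
  have hdel : ∀ s, del k mu c c' (v.1 - u.1) s ≠ 0 := by
    intro s hs
    have h1 := h.inj s (sub_eq_zero.1 hs)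
    exact hc (by linear_combination h1)
  obtain ⟨A, hA⟩ : ∃ A : Bool → F, A = av k c c' (v.1 - u.1) := ⟨_, rfl⟩
  obtain ⟨B, hB⟩ : ∃ B : Bool → K, B = fun s => (v.2 - u.2) / del k mu c c' (v.1 - u.1) s :=
    ⟨_, rfl⟩
  obtain ⟨Y, hY⟩ : ∃ Y : Bool → F, Y = fun s => u.1 - c / 2 - al k e s (A s - c) := ⟨_, rfl⟩
  obtain ⟨Z, hZ⟩ : ∃ Z : Bool → K, Z = fun s => u.2 - mu s (A s - c) * B s := ⟨_, rfl⟩
  have hA2 : ∀ s, k s * (c - c') * (2 * A s - c - c') = v.1 - u.1 := by
    intro s
    have hk := h.kne s
    rw [hA]
    simp only [av]
    field_simp
    ring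
  have hBd : ∀ s, (mu s (A s - c') - mu s (A s - c)) * B s = v.2 - u.2 := by
    intro s
    have h1 := hdel s
    rw [hA, hB]
    simp only [del] at h1 ⊢
    exact mul_div_cancel₀ _ h1
  have hdl : ∀ s, del k mu c c' (v.1 - u.1) s = mu s (A s - c') - mu s (A s - c) := by
    intro s
    rw [hA]
    rfl
  have hBne : ∀ s, B s ≠ 0 := by
    intro s h0
    apply hE
    rw [← hBd s, h0, mul_zero]
  have h22 : ∀ x : F, x / 2 + x / 2 = x := fun x => by field_simp; ring
  -- the first coordinates
  have hfst : ∀ (s : Bool) (y a : F), y + c / 2 + al k e s (a - c) = u.1 →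
      (y + c' / 2 + al k e s (a - c') = v.1 ↔ k s * (c - c') * (2 * a - c - c') = v.1 - u.1) := by
    intro s y a h1
    have h2 : y + c' / 2 + al k e s (a - c') =
        u.1 + k s * (c - c') * (2 * a - c - c') := by
      rw [← h1]
      unfold al
      ring
    rw [h2]
    constructor
    · intro h3
      rw [← h3]
      ring
    · intro h3
      rw [h3]
      ring
  unfold cnt
  symm
  refine Finset.card_bij
    (fun s _ => ((some (Y s + A s, Z s + B s), some (Y s, Z s)) : Option (F × K) × Option (F × K)))
    ?_ ?_ ?_
  · intro s hs
    have hs' : sg (B s) = s := by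
      have h1 := (mem_filter.1 hs).2
      rw [hB]
      exact h1
    have hne : Z s + B s ≠ Z s := by simpa using hBne s
    have e1 : Z s + B s - Z s = B s := by ring
    have e2 : Y s + A s - Y s = A s := by ring
    have e3 : Y s + c / 2 + al k e s (A s - c) = u.1 := by
      rw [hY]
      ring
    refine mem_filter.2 ⟨mem_univ _, ?_, ?_⟩
    · show (if Z s + B s = Z s then fil (Z s + B s) (L (some (Y s + A s)) (some (Y s)))
        else some (off sg k e mu c (Y s + A s) (Y s) (Z s + B s) (Z s))) = some u
      rw [if_neg hne]
      unfold off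
      rw [e1, e2, hs']
      congr 1
      refine Prod.ext e3 ?_
      show Z s + mu s (A s - c) * B s = u.2
      rw [hZ]
      ring
    · show (if Z s + B s = Z s then fil (Z s + B s) (M (some (Y s + A s)) (some (Y s)))
        else some (off sg k e mu c' (Y s + A s) (Y s) (Z s + B s) (Z s))) = some v
      rw [if_neg hne]
      unfold off
      rw [e1, e2, hs']
      congr 1
      refine Prod.ext ((hfst s (Y s) (A s) e3).2 (hA2 s)) ?_
      show Z s + mu s (A s - c') * B s = v.2
      have := hBd s
      rw [hZ]
      linear_combination this
  · intro s hs t ht hst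
    have hs' : sg (B s) = s := by
      have h1 := (mem_filter.1 hs).2
      rw [hB]
      exact h1
    have ht' : sg (B t) = t := by
      have h1 := (mem_filter.1 ht).2
      rw [hB]
      exact h1
    simp only [Prod.mk.injEq, Option.some.injEq] at hst
    have h1 : B s = B t := by
      have h2 := hst.1.2
      rw [hst.2.2] at h2
      exact add_left_cancel h2
    rw [← hs', ← ht', h1]
  · rintro ⟨i, j⟩ hij
    obtain ⟨h1, h2⟩ := (mem_filter.1 hij).2
    have hfil : ∀ (z : K) (w w' : Option F), fil z w = some u → fil z w' = some v → False := by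
      intro z w w' h3 h4
      cases w with
      | none => exact absurd h3 (by simp [fil])
      | some w =>
        cases w' with
        | none => exact absurd h4 (by simp [fil])
        | some w' =>
          simp only [fil, Option.some.injEq] at h3 h4
          apply huv
          rw [← h3, ← h4]
    cases i with
    | none =>
      cases j with
      | none => exact absurd h1 (by simp [big])
      | some r => exact (hfil _ _ _ h1 h2).elim
    | some p =>
      cases j with
      | none => exact (hfil _ _ _ h1 h2).elim
      | some r =>
        obtain ⟨x, z⟩ := p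
        obtain ⟨y, z'⟩ := r
        have h3 : (if z = z' then fil z (L (some x) (some y))
          else some (off sg k e mu c x y z z')) = some u := h1
        have h4 : (if z = z' then fil z (M (some x) (some y))
          else some (off sg k e mu c' x y z z')) = some v := h2
        by_cases hz : z = z'
        · rw [if_pos hz] at h3 h4
          exact (hfil _ _ _ h3 h4).elim
        · rw [if_neg hz, Option.some.injEq] at h3 h4
          obtain ⟨s, hs⟩ : ∃ s, s = sg (z - z') := ⟨_, rfl⟩
          unfold off at h3 h4
          rw [← hs] at h3 h4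
          have f1 : y + c / 2 + al k e s (x - y - c) = u.1 := congrArg Prod.fst h3
          have f2 : z' + mu s (x - y - c) * (z - z') = u.2 := congrArg Prod.snd h3
          have g1 : y + c' / 2 + al k e s (x - y - c') = v.1 := congrArg Prod.fst h4
          have g2 : z' + mu s (x - y - c') * (z - z') = v.2 := congrArg Prod.snd h4
          have g3 := (hfst s y (x - y) f1).1 g1
          have hAs : A s = x - y := by
            have h5 := hA2 s
            rw [← g3] at h5
            have h6 := mul_left_cancel₀ (mul_ne_zero (h.kne s) hcc) h5
            have h7 : (2 : F) * (A s - (x - y)) = 0 := by linear_combination h6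
            rcases mul_eq_zero.1 h7 with h8 | h8
            · exact absurd h8 hF
            · exact sub_eq_zero.1 h8
          have hBs : B s = z - z' := by
            have h5 := hBd s
            rw [hAs] at h5
            have h6 : (mu s (x - y - c') - mu s (x - y - c)) * (z - z') = v.2 - u.2 := by
              rw [← f2, ← g2]
              ring
            rw [← h6] at h5
            refine mul_left_cancel₀ ?_ h5
            have h7 := hdel s
            rw [hdl s, hAs] at h7
            exact h7
          have hYs : Y s = y := by
            rw [hY]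
            show u.1 - c / 2 - al k e s (A s - c) = y
            rw [hAs, ← f1]
            ring
          have hZs : Z s = z' := by
            rw [hZ]
            show u.2 - mu s (A s - c) * B s = z'
            rw [hAs, hBs, ← f2]
            ring
          refine ⟨s, mem_filter.2 ⟨mem_univ _, ?_⟩, ?_⟩
          · have h5 : (v.2 - u.2) / del k mu c c' (v.1 - u.1) s = B s := by rw [hB]
            rw [h5, hBs, hs]
          · show ((some (Y s + A s, Z s + B s), some (Y s, Z s)) : Option (F × K) × Option (F × K)) =
              (some (x, z), some (y, z'))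
            rw [hYs, hZs, hAs, hBs]
            congr 3 <;> ring

end Pool.Agent.Lib.MP_dea8c9_co.MG
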